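import Pool.Agent.H244Z.MTL.Neg

set_option autoImplicit false

namespace Pool.Agent.H244Z.Fuzzy

open Fm

/-- A deductively closed set of formulas. -/
structure Th (L : Logic) (S : Set Fm) : Prop where
  thm : ∀ φ, Thm L φ → φ ∈ S
  mp : ∀ φ ψ, φ ∈ S → imp φ ψ ∈ S → ψ ∈ S

namespace Th

variable {L : Logic} {S : Set Fm} (h : Th L S)
include h

lemma ax {φ : Fm} (a : AxMTL φ) : φ ∈ S := h.thm _ (Thm.ax a)

lemma trans {a b c : Fm} (h1 : imp a b ∈ S) (h2 : imp b c ∈ S) : imp a c ∈ S :=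
  h.mp _ _ h2 (h.mp _ _ h1 (h.ax (AxMTL.a1 a b c)))

lemma curry {a b c : Fm} (h1 : imp (conj a b) c ∈ S) : imp a (imp b c) ∈ S :=
  h.mp _ _ h1 (h.ax (AxMTL.a7b a b c))

lemma uncurry {a b c : Fm} (h1 : imp a (imp b c) ∈ S) : imp (conj a b) c ∈ S :=
  h.mp _ _ h1 (h.ax (AxMTL.a7a a b c))

lemma exch {a b c : Fm} (h1 : imp a (imp b c) ∈ S) : imp b (imp a c) ∈ S :=
  h.curry (h.trans (h.ax (AxMTL.a3 b a)) (h.uncurry h1))

lemma weak {a : Fm} (b : Fm) (h1 : a ∈ S) : imp b a ∈ S :=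
  h.mp _ _ h1 (h.curry (h.ax (AxMTL.a2 a b)))

lemma refl (a : Fm) : imp a a ∈ S :=
  h.mp _ _ (h.ax (AxMTL.a9 bot)) (h.exch (h.curry (h.ax (AxMTL.a2 a (imp bot bot)))))

lemma suff {a b : Fm} (c : Fm) (h1 : imp a b ∈ S) : imp (imp b c) (imp a c) ∈ S :=
  h.mp _ _ h1 (h.ax (AxMTL.a1 a b c))

lemma pref {a b : Fm} (c : Fm) (h1 : imp a b ∈ S) : imp (imp c a) (imp c b) ∈ S :=
  h.mp _ _ h1 (h.exch (h.ax (AxMTL.a1 c a b)))

lemma mono_l {a a' : Fm} (b : Fm) (h1 : imp a a' ∈ S) : imp (conj a b) (conj a' b) ∈ S :=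
  h.uncurry (h.trans h1 (h.curry (h.refl _)))

lemma mono_r {b b' : Fm} (a : Fm) (h1 : imp b b' ∈ S) : imp (conj a b) (conj a b') ∈ S :=
  h.trans (h.ax (AxMTL.a3 a b)) (h.trans (h.mono_l a h1) (h.ax (AxMTL.a3 b' a)))

lemma assoc1 (a b c : Fm) : imp (conj (conj a b) c) (conj a (conj b c)) ∈ S :=
  h.uncurry (h.uncurry (h.trans (h.curry (h.refl _)) (h.ax (AxMTL.a7b b c _))))

lemma assoc2 (a b c : Fm) : imp (conj a (conj b c)) (conj (conj a b) c) ∈ S :=
  h.uncurry (h.trans (h.curry (h.curry (h.refl _))) (h.ax (AxMTL.a7a b c _)))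

lemma le_meet {a b : Fm} (h1 : imp a b ∈ S) : imp a (meet a b) ∈ S :=
  h.mp _ _ h1 (h.exch (h.curry (h.ax (AxMTL.a6 a b))))

end Th

/-- Iterated implication `p → (p → ... θ)`. -/
def imps (p : Fm) : ℕ → Fm → Fm
  | 0, θ => θ
  | n + 1, θ => imp p (imps p n θ)

lemma imps_add (p : Fm) (m n : ℕ) (θ : Fm) : imps p (m + n) θ = imps p m (imps p n θ) := by
  induction m with
  | zero => simp [imps]
  | succ m ih => rw [Nat.succ_add, imps, imps, ih]

namespace Th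

variable {L : Logic} {S : Set Fm} (h : Th L S)
include h

lemma imps_mono (p : Fm) (n : ℕ) {a b : Fm} (h1 : imp a b ∈ S) :
    imp (imps p n a) (imps p n b) ∈ S := by
  induction n with
  | zero => exact h1
  | succ n ih => exact h.pref p ih

lemma exch_thm (a b c : Fm) : imp (imp a (imp b c)) (imp b (imp a c)) ∈ S :=
  h.trans (h.ax (AxMTL.a7a a b c))
    (h.trans (h.suff c (h.ax (AxMTL.a3 b a))) (h.ax (AxMTL.a7b b a c)))

lemma imps_out (p : Fm) (n : ℕ) (a b : Fm) : imp (imps p n (imp a b)) (imp a (imps p n b)) ∈ S := by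
  induction n with
  | zero => exact h.refl _
  | succ n ih => exact h.trans (h.pref p ih) (h.exch_thm _ _ _)

lemma imps_weak (p : Fm) (n : ℕ) (a : Fm) : imp a (imps p n a) ∈ S := by
  induction n with
  | zero => exact h.refl _
  | succ n ih => exact h.trans ih (h.curry (h.ax (AxMTL.a2 _ p)))

lemma ext (p : Fm) : Th L {θ | ∃ n, imps p n θ ∈ S} where
  thm φ hφ := ⟨0, h.thm φ hφ⟩
  mp a b := by
    rintro ⟨m, hm⟩ ⟨n, hn⟩
    refine ⟨m + n, ?_⟩
    rw [imps_add]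
    exact h.mp _ _ hm (h.imps_mono p m (h.mp _ _ hn (h.imps_out p n a b)))

lemma cases {a b φ : Fm} {m n : ℕ} (h1 : imps (imp a b) m φ ∈ S) (h2 : imps (imp b a) n φ ∈ S) :
    φ ∈ S := by
  have key : ∀ k i j, m + n ≤ i + j + k → imps (imp a b) i (imps (imp b a) j φ) ∈ S := by
    intro k
    induction k with
    | zero =>
      intro i j hij
      rcases le_total m i with hi | hi
      · obtain ⟨d, rfl⟩ := Nat.exists_eq_add_of_le' hi
        rw [imps_add]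
        exact h.mp _ _ (h.mp _ _ h1 (h.imps_mono _ m (h.imps_weak _ j φ))) (h.imps_weak _ d _)
      · obtain ⟨d, rfl⟩ := Nat.exists_eq_add_of_le' (show n ≤ j by omega)
        rw [imps_add]
        exact h.mp _ _ (h.mp _ _ h2 (h.imps_weak _ d _)) (h.imps_weak _ i _)
    | succ k ih =>
      intro i j hij
      have e1 := ih (i + 1) j (by omega)
      have e2 := ih i (j + 1) (by omega)
      have e3 := h.mp _ _ e2 (h.imps_out (imp a b) i (imp b a) (imps (imp b a) j φ))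
      exact h.mp _ _ e3 (h.mp _ _ e1 (h.ax (AxMTL.a8 a b _)))
  exact key (m + n) 0 0 (by omega)

end Th

theorem exists_linear {L : Logic} {φ : Fm} (hφ : ¬ Thm L φ) :
    ∃ S : Set Fm, Th L S ∧ φ ∉ S ∧ ∀ a b, imp a b ∈ S ∨ imp b a ∈ S := by
  obtain ⟨S, -, hS⟩ := zorn_subset_nonempty {S : Set Fm | Th L S ∧ φ ∉ S} (by
    intro c hc hch hne
    refine ⟨⋃₀ c, ⟨⟨fun ψ hψ => ?_, ?_⟩, ?_⟩, fun s hs => Set.subset_sUnion_of_mem hs⟩
    · obtain ⟨s, hs⟩ := hne
      exact ⟨s, hs, (hc hs).1.thm ψ hψ⟩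
    · rintro a b ⟨s, hs, ha⟩ ⟨t, ht, hb⟩
      rcases hch.total hs ht with h | h
      · exact ⟨t, ht, (hc ht).1.mp a b (h ha) hb⟩
      · exact ⟨s, hs, (hc hs).1.mp a b ha (h hb)⟩
    · rintro ⟨s, hs, ha⟩
      exact (hc hs).2 ha) {ψ | Thm L ψ} ⟨⟨fun _ h => h, fun _ _ h1 h2 => Thm.mp h1 h2⟩, hφ⟩
  have h := hS.prop.1
  refine ⟨S, h, hS.prop.2, fun a b => ?_⟩
  have key : ∀ p, p ∉ S → ∃ n, imps p n φ ∈ S := by
    intro p hp
    by_contra hc
    have h1 : {θ | ∃ n, imps p n θ ∈ S} ⊆ S :=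
      hS.le_of_ge ⟨h.ext p, hc⟩ (fun θ hθ => ⟨0, hθ⟩)
    exact hp (h1 ⟨1, h.refl p⟩)
  by_contra hc
  push Not at hc
  obtain ⟨m, hm⟩ := key _ hc.1
  obtain ⟨n, hn⟩ := key _ hc.2
  exact hS.prop.2 (h.cases hm hn)

section Quot

variable {L : Logic} {S : Set Fm} (h : Th L S)

/-- Provable equivalence. -/
def Th.setoid : Setoid Fm where
  r a b := imp a b ∈ S ∧ imp b a ∈ S
  iseqv := ⟨fun a => ⟨h.refl a, h.refl a⟩, fun x => ⟨x.2, x.1⟩,
    fun x y => ⟨h.trans x.1 y.1, h.trans y.2 x.2⟩⟩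

/-- The Lindenbaum algebra. -/
def Th.Q : Type := Quotient h.setoid

def Th.cl (a : Fm) : h.Q := Quotient.mk h.setoid a

lemma Th.ind {P : h.Q → Prop} (H : ∀ a, P (h.cl a)) (x : h.Q) : P x := Quotient.ind H x

lemma Th.mk_eq {a b : Fm} (h1 : imp a b ∈ S) (h2 : imp b a ∈ S) : h.cl a = h.cl b :=
  Quotient.sound ⟨h1, h2⟩

def Th.le : h.Q → h.Q → Prop :=
  Quotient.lift₂ (fun a b => imp a b ∈ S) (fun _ _ _ _ h1 h2 => propext
    ⟨fun x => h.trans h1.2 (h.trans x h2.1), fun x => h.trans h1.1 (h.trans x h2.2)⟩)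

def Th.mul : h.Q → h.Q → h.Q :=
  Quotient.map₂ conj (fun _ _ h1 _ _ h2 =>
    ⟨h.trans (h.mono_l _ h1.1) (h.mono_r _ h2.1), h.trans (h.mono_l _ h1.2) (h.mono_r _ h2.2)⟩)

def Th.impl : h.Q → h.Q → h.Q :=
  Quotient.map₂ imp (fun _ _ h1 _ _ h2 =>
    ⟨h.trans (h.suff _ h1.2) (h.pref _ h2.1), h.trans (h.suff _ h1.1) (h.pref _ h2.2)⟩)

instance : CommMonoid h.Q where
  mul := h.mul
  one := h.cl (imp bot bot)
  mul_assoc := by
    refine h.ind fun a => h.ind fun b => h.ind fun c => ?_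
    exact h.mk_eq (h.assoc1 a b c) (h.assoc2 a b c)
  mul_comm := by
    refine h.ind fun a => h.ind fun b => ?_
    exact h.mk_eq (h.ax (AxMTL.a3 a b)) (h.ax (AxMTL.a3 b a))
  one_mul := by
    refine h.ind fun a => ?_
    exact h.mk_eq (h.trans (h.ax (AxMTL.a3 _ _)) (h.ax (AxMTL.a2 _ _)))
      (h.mp _ _ (h.refl bot) (h.curry (h.refl _)))
  mul_one := by
    refine h.ind fun a => ?_
    exact h.mk_eq (h.ax (AxMTL.a2 _ _))
      (h.mp _ _ (h.refl bot) (h.exch (h.curry (h.refl _))))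

@[reducible] noncomputable def Th.linOrd (lin : ∀ a b, imp a b ∈ S ∨ imp b a ∈ S) :
    LinearOrder h.Q where
  le := h.le
  le_refl := h.ind fun a => h.refl a
  le_trans := h.ind fun _ => h.ind fun _ => h.ind fun _ h1 h2 => h.trans h1 h2
  le_antisymm := h.ind fun _ => h.ind fun _ h1 h2 => h.mk_eq h1 h2
  le_total := h.ind fun a => h.ind fun b => lin a b
  toDecidableLE := Classical.decRel _

end Quot

theorem chain_complete {φ : Fm} (hφ : ¬ Thm Logic.PiMTL φ) :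
    ∃ (A : Type) (_ : LinearOrder A) (_ : CommMonoid A) (M : MTLChain A),
      M.IsChainOf Logic.PiMTL ∧ ∃ v : ℕ → A, M.eval v φ ≠ 1 := by
  obtain ⟨S, h, hφS, lin⟩ := exists_linear hφ
  let := h.linOrd lin
  have le_one : ∀ x : h.Q, x ≤ 1 := h.ind fun a => h.weak a (h.refl bot)
  have eq_one : ∀ a, h.cl a = 1 ↔ a ∈ S := fun a =>
    ⟨fun x => h.mp _ _ (h.refl bot) (Quotient.exact x).2,
      fun x => h.mk_eq (h.weak a (h.refl bot)) (h.weak _ x)⟩
  have hmin : ∀ a b, h.cl (meet a b) = min (h.cl a) (h.cl b) := by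
    intro a b
    rcases lin a b with x | x
    · rw [min_eq_left (show h.cl a ≤ h.cl b from x)]
      exact h.mk_eq (h.ax (AxMTL.a4 a b)) (h.le_meet x)
    · rw [min_eq_right (show h.cl b ≤ h.cl a from x)]
      exact h.mk_eq (h.trans (h.ax (AxMTL.a5 a b)) (h.ax (AxMTL.a4 b a)))
        (h.trans (h.le_meet x) (h.ax (AxMTL.a5 b a)))
  let M : MTLChain h.Q :=
    { zero := h.cl bot
      imp := h.impl
      zero_le := h.ind fun a => h.ax (AxMTL.a9 a)
      le_one := le_one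
      res := h.ind fun _ => h.ind fun _ => h.ind fun _ => ⟨fun x => h.curry x, fun x => h.uncurry x⟩
      prelin := h.ind fun a => h.ind fun b => by
        refine le_antisymm (le_one _) ?_
        rcases lin a b with x | x
        · exact le_max_of_le_left ((eq_one (imp a b)).2 x).ge
        · exact le_max_of_le_right ((eq_one (imp b a)).2 x).ge }
  have hev : ∀ ψ, M.eval (fun n => h.cl (var n)) ψ = h.cl ψ := by
    intro ψ
    induction ψ with
    | var n => rfl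
    | bot => rfl
    | conj a b iha ihb => simp only [MTLChain.eval, iha, ihb]; rfl
    | imp a b iha ihb => simp only [MTLChain.eval, iha, ihb]; rfl
    | meet a b iha ihb => simp only [MTLChain.eval, iha, ihb, hmin]
  refine ⟨h.Q, inferInstance, inferInstance, M, ⟨?_, ?_⟩, fun n => h.cl (var n), ?_⟩
  · refine h.ind fun a => h.ind fun b => h.ind fun c => ?_
    exact (eq_one _).2 (h.thm _ (Thm.extra (AxExtra.pi1 a b c)))
  · refine h.ind fun a => ?_
    have := (eq_one _).2 (h.thm _ (Thm.extra (AxExtra.pi2 a)))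
    have e : min (h.cl a) (M.neg (h.cl a)) = h.cl (meet a a.neg) := (hmin a a.neg).symm
    rw [e]
    exact this
  · rw [hev, ne_eq, eq_one]
    exact hφS

end Pool.Agent.H244Z.Fuzzy
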