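import Mathlib

set_option autoImplicit false

namespace Pool.Agent.H244Z.Fuzzy

universe u

/-- Propositional formulas: variables, falsum, strong conjunction, implication and weak
conjunction (disjunction and the constant one are definable from these in MTL). -/
inductive Fm : Type
  | var : ℕ → Fm
  | bot : Fm
  | conj : Fm → Fm → Fm
  | imp : Fm → Fm → Fm
  | meet : Fm → Fm → Fm

open Fm

/-- Negation `¬φ = φ → 0`. -/
def Fm.neg (φ : Fm) : Fm := imp φ bot

/-- The axiom schemes of MTL (Esteva and Godo). -/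
inductive AxMTL : Fm → Prop
  | a1 (φ ψ χ : Fm) : AxMTL (imp (imp φ ψ) (imp (imp ψ χ) (imp φ χ)))
  | a2 (φ ψ : Fm) : AxMTL (imp (conj φ ψ) φ)
  | a3 (φ ψ : Fm) : AxMTL (imp (conj φ ψ) (conj ψ φ))
  | a4 (φ ψ : Fm) : AxMTL (imp (meet φ ψ) φ)
  | a5 (φ ψ : Fm) : AxMTL (imp (meet φ ψ) (meet ψ φ))
  | a6 (φ ψ : Fm) : AxMTL (imp (conj φ (imp φ ψ)) (meet φ ψ))
  | a7a (φ ψ χ : Fm) : AxMTL (imp (imp φ (imp ψ χ)) (imp (conj φ ψ) χ))
  | a7b (φ ψ χ : Fm) : AxMTL (imp (imp (conj φ ψ) χ) (imp φ (imp ψ χ)))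
  | a8 (φ ψ χ : Fm) : AxMTL (imp (imp (imp φ ψ) χ) (imp (imp (imp ψ φ) χ) χ))
  | a9 (φ : Fm) : AxMTL (imp bot φ)

/-- The three logics of the question. -/
inductive Logic : Type
  | MTL : Logic
  | IMTL : Logic
  | PiMTL : Logic

/-- The additional axiom schemes of IMTL and of product-like MTL. -/
inductive AxExtra : Logic → Fm → Prop
  | inv (φ : Fm) : AxExtra Logic.IMTL (imp φ.neg.neg φ)
  | pi1 (φ ψ χ : Fm) :
      AxExtra Logic.PiMTL (imp χ.neg.neg (imp (imp (conj φ χ) (conj ψ χ)) (imp φ ψ)))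
  | pi2 (φ : Fm) : AxExtra Logic.PiMTL (imp (meet φ φ.neg) bot)

/-- The theorems of `L`: generated from the axioms by modus ponens. -/
inductive Thm (L : Logic) : Fm → Prop
  | ax {φ : Fm} : AxMTL φ → Thm L φ
  | extra {φ : Fm} : AxExtra L φ → Thm L φ
  | mp {φ ψ : Fm} : Thm L φ → Thm L (imp φ ψ) → Thm L ψ

/-- A totally ordered MTL-algebra on `A`: a bounded integral commutative residuated lattice whose
order is linear (so meet and join are `min` and `max`) and which is prelinear. -/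
structure MTLChain (A : Type u) [LinearOrder A] [CommMonoid A] where
  zero : A
  imp : A → A → A
  zero_le : ∀ x : A, zero ≤ x
  le_one : ∀ x : A, x ≤ 1
  res : ∀ x y z : A, x * y ≤ z ↔ x ≤ imp y z
  prelin : ∀ x y : A, max (imp x y) (imp y x) = 1

variable {A : Type u} [LinearOrder A] [CommMonoid A]

/-- Negation `¬x = x → 0` in a chain. -/
def MTLChain.neg (M : MTLChain A) (x : A) : A := M.imp x M.zero

/-- `M` is an `L`-chain: it satisfies the identities defining `L`-algebras. -/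
def MTLChain.IsChainOf (M : MTLChain A) : Logic → Prop
  | Logic.MTL => True
  | Logic.IMTL => ∀ x : A, M.neg (M.neg x) = x
  | Logic.PiMTL =>
      (∀ x y z : A, M.imp (M.neg (M.neg z)) (M.imp (M.imp (x * z) (y * z)) (M.imp x y)) = 1) ∧
      ∀ x : A, M.imp (min x (M.neg x)) M.zero = 1

/-- The value of a formula under a valuation. -/
def MTLChain.eval (M : MTLChain A) (v : ℕ → A) : Fm → A
  | Fm.var n => v n
  | Fm.bot => M.zero
  | Fm.conj φ ψ => M.eval v φ * M.eval v ψ
  | Fm.imp φ ψ => M.imp (M.eval v φ) (M.eval v ψ)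
  | Fm.meet φ ψ => min (M.eval v φ) (M.eval v ψ)

/-- Single chain completeness: the theorems of `L` are exactly the tautologies of one `L`-chain. -/
def SCC (L : Logic) : Prop :=
  ∃ (A : Type u) (_ : LinearOrder A) (_ : CommMonoid A) (M : MTLChain A), M.IsChainOf L ∧
    ∀ φ : Fm, Thm L φ ↔ ∀ v : ℕ → A, M.eval v φ = 1

end Pool.Agent.H244Z.Fuzzy
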