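import Pool.Agent.H244Z.MTL.Defs

set_option autoImplicit false

namespace Pool.Agent.H244Z.Fuzzy

universe u

open Fm

namespace MTLChain

variable {A : Type u} [LinearOrder A] [CommMonoid A] (M : MTLChain A)

lemma imp_eq_one {x y : A} : M.imp x y = 1 ↔ x ≤ y := by
  constructor
  · intro h
    have := (M.res 1 x y).2 h.ge
    rwa [one_mul] at this
  · intro h
    exact le_antisymm (M.le_one _) ((M.res 1 x y).1 (by rwa [one_mul]))

lemma mp_le (x y : A) : M.imp x y * x ≤ y := (M.res _ _ _).2 le_rfl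

include M in
lemma mul_le_mul_r {x y : A} (h : x ≤ y) (z : A) : x * z ≤ y * z :=
  (M.res _ _ _).2 (le_trans h ((M.res _ _ _).1 le_rfl))

include M in
lemma mul_le_mul_l {x y : A} (h : x ≤ y) (z : A) : z * x ≤ z * y := by
  rw [mul_comm z x, mul_comm z y]; exact M.mul_le_mul_r h z

include M in
lemma mul_le_l (x y : A) : x * y ≤ x := by
  have := M.mul_le_mul_l (M.le_one y) x
  rwa [mul_one] at this

include M in
lemma mul_le_r (x y : A) : x * y ≤ y := by rw [mul_comm]; exact M.mul_le_l y x

include M in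
lemma pow_le_pow {x y : A} (h : x ≤ y) (n : ℕ) : x ^ n ≤ y ^ n := by
  induction n with
  | zero => simp
  | succ n ih =>
    rw [pow_succ, pow_succ]
    exact le_trans (M.mul_le_mul_r ih x) (M.mul_le_mul_l h _)

theorem sound {L : Logic} (hL : M.IsChainOf L) {φ : Fm} (h : Thm L φ) (v : ℕ → A) :
    M.eval v φ = 1 := by
  induction h with
  | ax h =>
    cases h with
    | a1 φ ψ χ =>
      simp only [eval]
      rw [imp_eq_one, ← M.res, ← M.res]
      calc M.imp (M.eval v φ) (M.eval v ψ) * M.imp (M.eval v ψ) (M.eval v χ) * M.eval v φ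
          = M.imp (M.eval v ψ) (M.eval v χ) * (M.imp (M.eval v φ) (M.eval v ψ) * M.eval v φ) := by
            ac_rfl
        _ ≤ M.imp (M.eval v ψ) (M.eval v χ) * M.eval v ψ := M.mul_le_mul_l (M.mp_le _ _) _
        _ ≤ _ := M.mp_le _ _
    | a2 φ ψ => simp only [eval]; rw [imp_eq_one]; exact M.mul_le_l _ _
    | a3 φ ψ => simp only [eval]; rw [imp_eq_one, mul_comm]
    | a4 φ ψ => simp only [eval]; rw [imp_eq_one]; exact min_le_left _ _
    | a5 φ ψ => simp only [eval]; rw [imp_eq_one, min_comm]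
    | a6 φ ψ =>
      simp only [eval]
      rw [imp_eq_one]
      exact le_min (M.mul_le_l _ _) (by rw [mul_comm]; exact M.mp_le _ _)
    | a7a φ ψ χ =>
      simp only [eval]
      rw [imp_eq_one, ← M.res, ← mul_assoc, M.res, M.res]
    | a7b φ ψ χ =>
      simp only [eval]
      rw [imp_eq_one, ← M.res, ← M.res, mul_assoc, M.res]
    | a8 φ ψ χ =>
      simp only [eval]
      rw [imp_eq_one, ← M.res]
      rcases le_total (M.eval v φ) (M.eval v ψ) with h | h
      · rw [M.imp_eq_one.2 h]
        refine le_trans (M.mul_le_l _ _) ?_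
        have := M.mp_le 1 (M.eval v χ)
        rwa [mul_one] at this
      · rw [M.imp_eq_one.2 h]
        refine le_trans (M.mul_le_r _ _) ?_
        have := M.mp_le 1 (M.eval v χ)
        rwa [mul_one] at this
    | a9 φ => simp only [eval]; rw [imp_eq_one]; exact M.zero_le _
  | extra h =>
    cases h with
    | inv φ =>
      simp only [eval, Fm.neg]
      rw [imp_eq_one]
      exact (hL _).le
    | pi1 φ ψ χ => exact hL.1 _ _ _
    | pi2 φ => exact hL.2 _
  | mp _ _ ih1 ih2 =>
    simp only [eval] at ih2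
    rw [ih1, imp_eq_one] at ih2
    exact le_antisymm (M.le_one _) ih2

/-- The key inequality: the two systems of equations cannot hold together, even approximately. -/
theorem key {g c m u n : A} (h1 : g * (m * m) ≤ M.zero) (h3 : g * M.neg c ≤ c * m)
    (h4 : g * (c * c * c) ≤ M.zero) (h5 : g * M.neg (M.neg c) ≤ c) (h7 : g * M.neg n ≤ n)
    (h6 : g * (u * u * n) ≤ M.zero) (h8 : g * M.neg (u * u * u) ^ 4 ≤ M.zero) :
    g ^ 65 ≤ M.zero := by
  have sA : g ^ 2 * m ≤ n := by
    rcases le_total m n with h | h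
    · exact le_trans (M.mul_le_r _ _) h
    · have e1 : g * m * n ≤ M.zero := by
        refine le_trans (M.mul_le_mul_l h _) ?_
        rwa [mul_assoc]
      have e2 : g * m ≤ M.neg n := (M.res _ _ _).1 e1
      calc g ^ 2 * m = g * (g * m) := by rw [pow_two, mul_assoc]
        _ ≤ g * M.neg n := M.mul_le_mul_l e2 _
        _ ≤ n := h7
  have sB : g ^ 5 * u ≤ c := by
    rcases le_total u c with h | h
    · exact le_trans (M.mul_le_r _ _) h
    · have e1 : g ^ 4 * u * M.neg c ≤ M.zero := by
        calc g ^ 4 * u * M.neg c = g ^ 3 * u * (g * M.neg c) := by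
              rw [show (4 : ℕ) = 3 + 1 from rfl, pow_succ]; ac_rfl
          _ ≤ g ^ 3 * u * (c * m) := M.mul_le_mul_l h3 _
          _ ≤ g ^ 3 * u * (u * m) := M.mul_le_mul_l (M.mul_le_mul_r h _) _
          _ = g * (u * u) * (g ^ 2 * m) := by
              rw [show (3 : ℕ) = 2 + 1 from rfl, pow_succ]; ac_rfl
          _ ≤ g * (u * u) * n := M.mul_le_mul_l sA _
          _ = g * (u * u * n) := by ac_rfl
          _ ≤ M.zero := h6
      have e2 : g ^ 4 * u ≤ M.neg (M.neg c) := (M.res _ _ _).1 e1
      calc g ^ 5 * u = g * (g ^ 4 * u) := by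
            rw [show (5 : ℕ) = 4 + 1 from rfl, pow_succ]; ac_rfl
        _ ≤ g * M.neg (M.neg c) := M.mul_le_mul_l e2 _
        _ ≤ c := h5
  have sC : g ^ 16 * (u * u * u) ≤ M.zero := by
    calc g ^ 16 * (u * u * u) = g * (g ^ 5 * u) ^ 3 := by
          rw [mul_pow, ← pow_mul, show (16 : ℕ) = 5 * 3 + 1 from rfl, pow_succ,
            show (3 : ℕ) = 2 + 1 from rfl, pow_succ u, pow_two u]
          ac_rfl
      _ ≤ g * c ^ 3 := M.mul_le_mul_l (M.pow_le_pow sB 3) _
      _ = g * (c * c * c) := by rw [pow_three']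
      _ ≤ M.zero := h4
  have sD : g ^ 16 ≤ M.neg (u * u * u) := (M.res _ _ _).1 sC
  calc g ^ 65 = g * (g ^ 16) ^ 4 := by
        rw [← pow_mul, show (65 : ℕ) = 16 * 4 + 1 from rfl, pow_succ, mul_comm]
    _ ≤ g * M.neg (u * u * u) ^ 4 := M.mul_le_mul_l (M.pow_le_pow sD 4) _
    _ ≤ M.zero := h8

end MTLChain

/-- The power `φ ^ (n + 1)`. -/
def Fm.pw (φ : Fm) : ℕ → Fm
  | 0 => φ
  | n + 1 => conj (φ.pw n) φ

lemma eval_pw {A : Type u} [LinearOrder A] [CommMonoid A] (M : MTLChain A) (v : ℕ → A) (φ : Fm)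
    (n : ℕ) : M.eval v (φ.pw n) = M.eval v φ ^ (n + 1) := by
  induction n with
  | zero => simp [Fm.pw]
  | succ n ih => simp only [Fm.pw, MTLChain.eval, ih, pow_succ]

def alpha : Fm :=
  meet (meet (conj (var 1) (var 1)).neg (imp (var 0).neg (conj (var 0) (var 1))))
    (meet (conj (conj (var 0) (var 0)) (var 0)).neg (imp (var 0).neg.neg (var 0)))

def beta : Fm :=
  meet (meet (imp (var 1).neg (var 1)) (conj (conj (var 0) (var 0)) (var 1)).neg)
    ((conj (conj (var 0) (var 0)) (var 0)).neg.pw 3).neg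

/-- Five element chains. -/
def A5 : Type := Fin 5
def L5 : Type := Fin 5

instance : LinearOrder A5 := inferInstanceAs (LinearOrder (Fin 5))
instance : LinearOrder L5 := inferInstanceAs (LinearOrder (Fin 5))
instance : Fintype A5 := inferInstanceAs (Fintype (Fin 5))
instance : Fintype L5 := inferInstanceAs (Fintype (Fin 5))

def mulA (x y : Fin 5) : Fin 5 :=
  if x = 4 then y else if y = 4 then x else if 4 < x.val + y.val then 1 else 0

def impA (x y : Fin 5) : Fin 5 :=
  if x ≤ y then 4 else if x = 4 then y else if y = 0 then x.rev else 3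

def mulL (x y : Fin 5) : Fin 5 := ⟨x.val + y.val - 4, by omega⟩

def impL (x y : Fin 5) : Fin 5 := ⟨min 4 (4 + y.val - x.val), by omega⟩

instance : CommMonoid A5 where
  mul := mulA
  one := (4 : Fin 5)
  mul_assoc := by decide
  one_mul := by decide
  mul_one := by decide
  mul_comm := by decide

instance : CommMonoid L5 where
  mul := mulL
  one := (4 : Fin 5)
  mul_assoc := by decide
  one_mul := by decide
  mul_one := by decide
  mul_comm := by decide

def MA : MTLChain A5 where
  zero := (0 : Fin 5)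
  imp := impA
  zero_le := fun x => Fin.zero_le (n := 5) x
  le_one := by decide
  res := by decide
  prelin := by decide

def ML : MTLChain L5 where
  zero := (0 : Fin 5)
  imp := impL
  zero_le := fun x => Fin.zero_le (n := 5) x
  le_one := by decide
  res := by decide
  prelin := by decide

lemma MA_inv : ∀ x, MA.neg (MA.neg x) = x := by decide
lemma ML_inv : ∀ x, ML.neg (ML.neg x) = x := by decide

theorem not_scc {L : Logic} (hA : MA.IsChainOf L) (hL : ML.IsChainOf L) : ¬ SCC.{u} L := by
  rintro ⟨A, _, _, M, _, hM⟩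
  have nA : ¬ Thm L (alpha.pw 64).neg := by
    intro h
    have h1 := MA.sound hA h (fun n => if n = 0 then (3 : Fin 5) else (2 : Fin 5))
    have h2 : MA.eval (fun n => if n = 0 then (3 : Fin 5) else (2 : Fin 5)) alpha = 1 := by decide
    simp only [Fm.neg, MTLChain.eval, eval_pw, h2, one_pow] at h1
    revert h1
    decide
  have nB : ¬ Thm L (beta.pw 64).neg := by
    intro h
    have h1 := ML.sound hL h (fun n => if n = 0 then (3 : Fin 5) else (2 : Fin 5))
    have h2 : ML.eval (fun n => if n = 0 then (3 : Fin 5) else (2 : Fin 5)) beta = 1 := by decide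
    simp only [Fm.neg, MTLChain.eval, eval_pw, h2, one_pow] at h1
    revert h1
    decide
  rw [hM] at nA nB
  push Not at nA nB
  obtain ⟨v, hv⟩ := nA
  obtain ⟨w, hw⟩ := nB
  simp only [Fm.neg, MTLChain.eval, eval_pw, ne_eq, M.imp_eq_one] at hv hw
  have hg : min (M.eval v alpha) (M.eval w beta) ^ 65 ≤ M.zero := by
    have ha : min (M.eval v alpha) (M.eval w beta) ≤ M.eval v alpha := min_le_left _ _
    have hb : min (M.eval v alpha) (M.eval w beta) ≤ M.eval w beta := min_le_right _ _
    generalize min (M.eval v alpha) (M.eval w beta) = g at ha hb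
    simp only [alpha, beta, Fm.neg, MTLChain.eval, eval_pw, le_min_iff, ← M.res] at ha hb
    obtain ⟨⟨a1, a2⟩, a3, a4⟩ := ha
    obtain ⟨⟨b1, b2⟩, b3⟩ := hb
    exact M.key a1 a2 a3 a4 b1 b2 b3
  rcases min_choice (M.eval v alpha) (M.eval w beta) with h | h
  · rw [h] at hg; exact hv hg
  · rw [h] at hg; exact hw hg

theorem not_scc_MTL : ¬ SCC.{u} Logic.MTL := not_scc trivial trivial

theorem not_scc_IMTL : ¬ SCC.{u} Logic.IMTL := not_scc MA_inv ML_inv

end Pool.Agent.H244Z.Fuzzy
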