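import Pool.Agent.H244Z.MTL.Compl

set_option autoImplicit false

namespace Pool.Agent.H244Z.Fuzzy

/-- A cancellative integral residuated chain. -/
structure Can (P : Type) [LinearOrder P] [CommMonoid P] where
  imp : P → P → P
  le_one : ∀ x : P, x ≤ 1
  res : ∀ x y z : P, x * y ≤ z ↔ x ≤ imp y z
  cancel : ∀ x y z : P, x * z ≤ y * z → x ≤ y

namespace Can

section One

variable {P : Type} [LinearOrder P] [CommMonoid P] (K : Can P)

lemma imp_eq_one {x y : P} : K.imp x y = 1 ↔ x ≤ y := by
  constructor
  · intro h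
    have := (K.res 1 x y).2 h.ge
    rwa [one_mul] at this
  · intro h
    exact le_antisymm (K.le_one _) ((K.res 1 x y).1 (by rwa [one_mul]))

include K in
lemma mul_lt {x y : P} (h : x < y) (z : P) : x * z < y * z :=
  lt_of_not_ge fun h' => absurd (K.cancel _ _ _ h') (not_le.2 h)

/-- The residual after adjoining a zero. -/
def zimp : WithZero P → WithZero P → WithZero P
  | none, _ => 1
  | some _, none => 0
  | some a, some b => (K.imp a b : P)

lemma zimp_zero (y : WithZero P) : K.zimp 0 y = 1 := rfl
lemma zimp_coe_zero (a : P) : K.zimp a 0 = 0 := rfl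
lemma zimp_coe_coe (a b : P) : K.zimp a b = (K.imp a b : P) := rfl

include K in
lemma zle_one (x : WithZero P) : x ≤ 1 := by
  induction x with
  | zero => exact WithZero.zero_le _
  | coe a => exact WithZero.coe_le_coe.2 (K.le_one a)

lemma zres (x y z : WithZero P) : x * y ≤ z ↔ x ≤ K.zimp y z := by
  induction y with
  | zero => simp [zimp_zero, K.zle_one, WithZero.zero_le]
  | coe b =>
    induction x with
    | zero => simp [WithZero.zero_le]
    | coe a =>
      induction z with
      | zero =>
        rw [zimp_coe_zero, ← WithZero.coe_mul]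
        exact ⟨fun h => absurd h (WithZero.not_coe_le_zero _),
          fun h => absurd h (WithZero.not_coe_le_zero _)⟩
      | coe c =>
        rw [zimp_coe_coe, ← WithZero.coe_mul, WithZero.coe_le_coe, WithZero.coe_le_coe, K.res]

/-- The chain obtained by adjoining a zero. -/
def withZero : MTLChain (WithZero P) where
  zero := 0
  imp := K.zimp
  zero_le := WithZero.zero_le
  le_one := K.zle_one
  res := K.zres
  prelin x y := by
    refine le_antisymm (K.zle_one _) ?_
    rcases le_total x y with h | h
    · exact le_max_of_le_left ((K.zres _ _ _).1 (by rwa [one_mul]))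
    · exact le_max_of_le_right ((K.zres _ _ _).1 (by rwa [one_mul]))

lemma withZero_pi : K.withZero.IsChainOf Logic.PiMTL := by
  constructor
  · intro x y z
    rw [MTLChain.imp_eq_one]
    induction z with
    | zero => exact WithZero.zero_le _
    | coe c =>
      refine le_trans (K.zle_one _) (le_of_eq ?_)
      symm
      rw [MTLChain.imp_eq_one, ← K.withZero.res]
      have h1 := K.withZero.mp_le (x * c) (y * c)
      generalize K.withZero.imp (x * c) (y * c) = w at h1
      rw [← mul_assoc] at h1
      generalize w * x = t at h1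
      induction t with
      | zero => exact WithZero.zero_le _
      | coe a =>
        induction y with
        | zero =>
          rw [zero_mul, ← WithZero.coe_mul] at h1
          exact absurd h1 (WithZero.not_coe_le_zero _)
        | coe b =>
          rw [← WithZero.coe_mul, ← WithZero.coe_mul, WithZero.coe_le_coe] at h1
          exact WithZero.coe_le_coe.2 (K.cancel _ _ _ h1)
  · intro x
    rw [MTLChain.imp_eq_one]
    induction x with
    | zero => exact min_le_left _ _
    | coe a => exact min_le_right _ _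

end One

section Prod

variable {ι : Type} [LinearOrder ι] [WellFoundedLT ι] {P : ι → Type} [∀ i, LinearOrder (P i)]
  [∀ i, CommMonoid (P i)] (K : ∀ i, Can (P i))

open Classical in
/-- The residual of the lexicographic product. -/
noncomputable def limp (x y : Lex (∀ i, P i)) : Lex (∀ i, P i) :=
  toLex fun i => if ∀ j < i, (K j).imp (x j) (y j) * x j = y j then (K i).imp (x i) (y i) else 1

include K in
lemma lmul_lt {x y : Lex (∀ i, P i)} (h : x < y) (z : Lex (∀ i, P i)) : x * z < y * z := by
  obtain ⟨i, h1, h2⟩ := h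
  exact ⟨i, fun j hj => congrArg (· * z j) (h1 j hj), (K i).mul_lt h2 (z i)⟩

include K in
lemma lmul_le {x y : Lex (∀ i, P i)} (h : x ≤ y) (z : Lex (∀ i, P i)) : x * z ≤ y * z := by
  rcases h.eq_or_lt with h | h
  · rw [h]
  · exact (lmul_lt K h z).le

lemma limp_mul_le (x y : Lex (∀ i, P i)) : limp K x y * x ≤ y := by
  classical
  by_cases h : ∀ i, (K i).imp (x i) (y i) * x i = y i
  · refine le_of_eq (funext fun i => ?_)
    change (if ∀ j < i, (K j).imp (x j) (y j) * x j = y j then (K i).imp (x i) (y i) else 1) * x i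
      = y i
    rw [if_pos (fun j _ => h j), h i]
  · push Not at h
    obtain ⟨i, hi, hmin⟩ := (wellFounded_lt (α := ι)).has_min
      {i | (K i).imp (x i) (y i) * x i ≠ y i} h
    have hlt : ∀ j < i, (K j).imp (x j) (y j) * x j = y j := fun j hj => by
      by_contra hc
      exact hmin j hc hj
    refine le_of_lt ⟨i, fun j hj => ?_, ?_⟩
    · change (if ∀ l < j, (K l).imp (x l) (y l) * x l = y l then (K j).imp (x j) (y j) else 1) * x j
        = y j
      rw [if_pos (fun l hl => hlt l (lt_trans hl hj)), hlt j hj]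
    · change (if ∀ l < i, (K l).imp (x l) (y l) * x l = y l then (K i).imp (x i) (y i) else 1) * x i
        < y i
      rw [if_pos hlt]
      exact lt_of_le_of_ne (((K i).res _ _ _).2 le_rfl) hi

lemma lres (w x y : Lex (∀ i, P i)) : w * x ≤ y ↔ w ≤ limp K x y := by
  classical
  refine ⟨fun h => ?_, fun h => le_trans (lmul_le K h x) (limp_mul_le K x y)⟩
  by_contra hc
  obtain ⟨i, h1, h2⟩ := not_le.1 hc
  change (if ∀ l < i, (K l).imp (x l) (y l) * x l = y l then (K i).imp (x i) (y i) else 1)
    < w i at h2
  split_ifs at h2 with h3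
  · refine absurd h (not_le.2 ⟨i, fun j hj => ?_, ?_⟩)
    · have h4 := h1 j hj
      change (if ∀ l < j, (K l).imp (x l) (y l) * x l = y l then (K j).imp (x j) (y j) else 1)
        = w j at h4
      rw [if_pos (fun l hl => h3 l (lt_trans hl hj))] at h4
      change y j = w j * x j
      rw [← h4, h3 j hj]
    · change y i < w i * x i
      exact lt_of_not_ge fun h5 => absurd (((K i).res _ _ _).1 h5) (not_le.2 h2)
  · exact absurd h2 (not_lt.2 ((K i).le_one _))

/-- The lexicographic product. -/
noncomputable def lex : Can (Lex (∀ i, P i)) where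
  imp := limp K
  le_one x := by
    by_contra hc
    obtain ⟨i, -, h2⟩ := not_le.1 hc
    exact absurd h2 (not_lt.2 ((K i).le_one _))
  res := lres K
  cancel x y z h := by
    by_contra hc
    exact absurd h (not_le.2 (lmul_lt K (not_le.1 hc) z))

/-- The embedding of a factor. -/
def emb (i : ι) (a : P i) : Lex (∀ i, P i) := toLex (Pi.mulSingle i a)

omit [WellFoundedLT ι] [∀ i, LinearOrder (P i)] in
lemma emb_mul (i : ι) (a b : P i) : emb i (a * b) = emb i a * emb i b := Pi.mulSingle_mul i a b

omit [WellFoundedLT ι] [∀ i, LinearOrder (P i)] in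
lemma emb_one (i : ι) : emb (P := P) i 1 = 1 := Pi.mulSingle_one i

omit [WellFoundedLT ι] [∀ i, LinearOrder (P i)] in
lemma emb_inj (i : ι) {a b : P i} (h : emb i a = emb i b) : a = b :=
  Pi.mulSingle_injective i h

omit [WellFoundedLT ι] in
lemma emb_imp (i : ι) (a b : P i) : emb i ((K i).imp a b) = limp K (emb i a) (emb i b) := by
  classical
  funext j
  change Pi.mulSingle (M := P) i ((K i).imp a b) j = if ∀ l < j,
    (K l).imp (Pi.mulSingle (M := P) i a l) (Pi.mulSingle (M := P) i b l) *
      Pi.mulSingle (M := P) i a l = Pi.mulSingle (M := P) i b l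
    then (K j).imp (Pi.mulSingle (M := P) i a j) (Pi.mulSingle (M := P) i b j) else 1
  by_cases hj : j = i
  · subst hj
    rw [if_pos]
    · simp
    · intro l hl
      simp [Pi.mulSingle_eq_of_ne hl.ne, (K l).imp_eq_one]
  · have : (K j).imp 1 1 = 1 := (K j).imp_eq_one.2 le_rfl
    simp [Pi.mulSingle_eq_of_ne hj, this]

end Prod

end Can

section Pos

variable {A : Type} [LinearOrder A] [CommMonoid A] (M : MTLChain A)

lemma neg_eq_zero (hM : M.IsChainOf Logic.PiMTL) {x : A} (hx : x ≠ M.zero) : M.neg x = M.zero := by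
  have h := M.imp_eq_one.1 (hM.2 x)
  rcases min_choice x (M.neg x) with e | e
  · rw [e] at h
    exact absurd (le_antisymm h (M.zero_le _)) hx
  · rw [e] at h
    exact le_antisymm h (M.zero_le _)

/-- The nonzero elements as a submonoid. -/
def nz (hM : M.IsChainOf Logic.PiMTL) (h1 : (1 : A) ≠ M.zero) : Submonoid A where
  carrier := {a | a ≠ M.zero}
  one_mem' := h1
  mul_mem' := by
    intro a b ha hb hab
    have h : a ≤ M.neg b := (M.res _ _ _).1 hab.le
    rw [neg_eq_zero M hM hb] at h
    exact ha (le_antisymm h (M.zero_le _))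

lemma imp_ne_zero (x : A) {y : A} (hy : y ≠ M.zero) : M.imp x y ≠ M.zero := by
  intro h
  have : y ≤ M.imp x y := (M.res _ _ _).1 (M.mul_le_l y x)
  rw [h] at this
  exact hy (le_antisymm this (M.zero_le _))

/-- The cancellative chain of nonzero elements. -/
def nzCan (hM : M.IsChainOf Logic.PiMTL) (h1 : (1 : A) ≠ M.zero) : Can (nz M hM h1) where
  imp x y := ⟨M.imp x y, imp_ne_zero M x y.2⟩
  le_one x := M.le_one x
  res x y z := M.res x y z
  cancel x y z h := by
    have h2 := M.imp_eq_one.1 (hM.1 x y z)
    have h3 : M.neg (M.neg z) = 1 := by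
      rw [neg_eq_zero M hM z.2]
      exact M.imp_eq_one.2 le_rfl
    have h4 : M.imp (x * z) (y * z) = 1 := M.imp_eq_one.2 h
    rw [h3, h4] at h2
    have h5 := M.imp_eq_one.1 (le_antisymm (M.le_one _) h2)
    exact M.imp_eq_one.1 (le_antisymm (M.le_one _) h5)

end Pos

lemma eval_map {A B : Type} [LinearOrder A] [CommMonoid A] [LinearOrder B] [CommMonoid B]
    (M : MTLChain A) (N : MTLChain B) (f : A → B) (h0 : f M.zero = N.zero) (h1 : f 1 = 1)
    (hmul : ∀ a b, f (a * b) = f a * f b) (himp : ∀ a b, f (M.imp a b) = N.imp (f a) (f b))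
    (v : ℕ → A) (φ : Fm) : N.eval (fun n => f (v n)) φ = f (M.eval v φ) := by
  have mono : Monotone f := fun a b h => by
    rw [← N.imp_eq_one, ← himp, M.imp_eq_one.2 h, h1]
  induction φ with
  | var n => rfl
  | bot => exact h0.symm
  | conj a b iha ihb => simp only [MTLChain.eval, iha, ihb, hmul]
  | imp a b iha ihb => simp only [MTLChain.eval, iha, ihb, himp]
  | meet a b iha ihb => simp only [MTLChain.eval, iha, ihb, mono.map_min]

theorem scc_PiMTL : SCC.{0} Logic.PiMTL := by
  classical
  have H : ∀ i : {φ : Fm // ¬ Thm Logic.PiMTL φ}, _ := fun i => chain_complete i.2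
  choose A lo cm M hM v hv using H
  obtain ⟨wo, wf⟩ := exists_wellOrder {φ : Fm // ¬ Thm Logic.PiMTL φ}
  have h1 : ∀ i, (1 : A i) ≠ (M i).zero := fun i h =>
    hv i (le_antisymm ((M i).le_one _) (h ▸ (M i).zero_le _))
  let K : ∀ i, Can (nz (M i) (hM i) (h1 i)) := fun i => nzCan (M i) (hM i) (h1 i)
  refine ⟨WithZero (Lex (∀ i, nz (M i) (hM i) (h1 i))), inferInstance, inferInstance,
    (Can.lex K).withZero, (Can.lex K).withZero_pi, fun φ => ⟨fun h w => ?_, fun h => ?_⟩⟩
  · exact MTLChain.sound _ (Can.lex K).withZero_pi h w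
  · by_contra hφ
    let i : {φ : Fm // ¬ Thm Logic.PiMTL φ} := ⟨φ, hφ⟩
    let f : A i → WithZero (Lex (∀ i, nz (M i) (hM i) (h1 i))) := fun a =>
      if ha : a = (M i).zero then 0 else
        ((Can.emb (P := fun i => nz (M i) (hM i) (h1 i)) i ⟨a, ha⟩ :
          Lex (∀ i, nz (M i) (hM i) (h1 i))) : WithZero _)
    have f0 : f (M i).zero = 0 := dif_pos rfl
    have fn : ∀ a : nz (M i) (hM i) (h1 i), f a =
        ((Can.emb (P := fun i => nz (M i) (hM i) (h1 i)) i a :
          Lex (∀ i, nz (M i) (hM i) (h1 i))) : WithZero _) := fun a => dif_neg a.2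
    have zmul : ∀ b : A i, (M i).zero * b = (M i).zero := fun b =>
      le_antisymm ((M i).mul_le_l _ _) ((M i).zero_le _)
    have f1 : f 1 = 1 := by
      have := fn 1
      rw [Can.emb_one] at this
      exact this
    have key := eval_map (M i) (Can.lex K).withZero f f0 f1 (by
      intro a b
      by_cases ha : a = (M i).zero
      · rw [ha, zmul, f0, zero_mul]
      · by_cases hb : b = (M i).zero
        · rw [hb, mul_comm, zmul, f0, mul_zero]
        · have := fn (⟨a, ha⟩ * ⟨b, hb⟩)
          rw [Can.emb_mul, WithZero.coe_mul, ← fn, ← fn] at this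
          exact this) (by
      intro a b
      by_cases ha : a = (M i).zero
      · rw [ha, (M i).imp_eq_one.2 ((M i).zero_le _), f0, f1]
        rfl
      · by_cases hb : b = (M i).zero
        · have e : (M i).imp a (M i).zero = (M i).zero := neg_eq_zero (M i) (hM i) ha
          rw [hb, e, f0, fn ⟨a, ha⟩]
          rfl
        · have := fn ((K i).imp ⟨a, ha⟩ ⟨b, hb⟩)
          rw [Can.emb_imp K] at this
          rw [fn ⟨a, ha⟩, fn ⟨b, hb⟩]
          exact this) (v i) φ
    rw [h] at key
    by_cases hz : (M i).eval (v i) φ = (M i).zero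
    · rw [hz, f0] at key
      exact one_ne_zero key
    · rw [fn ⟨_, hz⟩, ← WithZero.coe_one, WithZero.coe_inj,
        ← Can.emb_one (P := fun i => nz (M i) (hM i) (h1 i)) i] at key
      exact hv i (congrArg Subtype.val (Can.emb_inj i key)).symm

end Pool.Agent.H244Z.Fuzzy
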